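import Pool.Agent.H15.PRad

open Set Filter Topology

namespace Pool.Agent.Results.MP_94a925_gt.NoEmb

universe u v

/-- The transfinite sequence `x` of length `κ` converges to `z`. -/
def Converges {Z : Type u} [TopologicalSpace Z] (κ : Ordinal.{v}) (x : Set.Iio κ → Z) (z : Z) :
    Prop :=
  ∀ N ∈ 𝓝 z, ∃ β : Set.Iio κ, ∀ α : Set.Iio κ, β ≤ α → x α ∈ N

/-- `A` contains every limit of a transfinite sequence of points of `A`. -/
def RadiallyClosed {Z : Type u} [TopologicalSpace Z] (A : Set Z) : Prop :=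
  ∀ (κ : Ordinal.{v}) (x : Set.Iio κ → Z) (z : Z), (∀ α, x α ∈ A) → Converges κ x z → z ∈ A

/-- Every radially closed set is closed. -/
def Pseudoradial (Z : Type u) [TopologicalSpace Z] : Prop :=
  ∀ A : Set Z, RadiallyClosed.{u, v} A → IsClosed A

theorem result (Z : Type u) [TopologicalSpace Z] [T3Space Z] (hZ : Pseudoradial.{u, v} Z) :
    ¬ ∃ e : {f : unitInterval → ℝ // Continuous f} → Z, IsEmbedding e := by
  rintro ⟨e, he⟩
  obtain ⟨A, hA, hA'⟩ := Pool.Agent.H15.PRad.main (X := unitInterval)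
    (fun O hO ⟨x, hx⟩ => infinite_of_mem_nhds x (hO.mem_nhds hx)) he
  exact hA (hZ A fun κ x z hx hc => hA' _ x z hx hc)

end Pool.Agent.Results.MP_94a925_gt.NoEmb
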